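import Pool.Agent.Q99.ET.Arb4

/-!
# Jones polynomials of highly twisted arborescent links

`Γ : Ribbon k` is a connected plane graph with `k` edges (`Γ.Planar`, a ribbon graph of genus `0`), `B` a
set of edges. `mix Γ B` is the diagram without crossings which has one open box at every edge of `Γ`, and
`(mix Γ B).fill n` is the link diagram with a row of `|n e|` crossings, of the kind given by the sign of
`n e`, in the box of `e`: across the edge `e` if `e ∉ B`, along the edge `e` if `e ∈ B`. Its Tait graph is
the graph obtained from `Γ` by replacing every edge `e ∉ B` by `|n e|` parallel edges and every edge `e ∈ B`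
by a path of `|n e|` edges.

`gr Γ X` is the rank of the set `X` of edges: the number of vertices of `Γ` minus the number `Γ.comps X` of
components of the spanning subgraph with the edges `X`. `SPall r E`: `E` can be reduced to the empty set by
deleting loops, coloops and components which consist of two parallel elements, deleting one of two
parallel elements, and contracting one of two elements in series: series-parallel graphs (arborescent
diagrams).

Assumptions: `Γ` is series-parallel; no edge outside `B` is a loop, no two edges outside `B` are parallel;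
`Γ` remains connected when one or two edges of `B` are removed (no twist region is nugatory, no two can be
merged by flypes); every twist region has at least `202 k ^ 2` crossings, of any sign.

Proof: at a point `A` of the unit circle near `exp(π i/4)` the value of the bracket is a state sum of `Γ` at
`Q = (-A^2-A^{-2})^2 > 0`, with weights `x e - 1` (`e ∉ B`) and `Q / (x e - 1)` (`e ∈ B`), 
`x e = (-A^{-4}) ^ n e`. The mean value theorem for an antiderivative of a sum of Poisson kernels gives a
point at which all `x e` are far enough from `1`: `√Q ∑ 4 / |x e - 1| ^ 2 ≤ 1 / 4`. Series and parallel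
reductions with exact control of the errors in `Q` then give a lower bound.
-/

set_option autoImplicit false

namespace Pool.Agent.Results.MP_42db45_gt.ArborescentTwists

open Finset LaurentPolynomial Pool.Agent.H891R2.Jones Pool.Agent.H891R2.MT Pool.Agent.H891R2.SI
open Pool.Agent.Q99.ET

theorem result {k : ℕ} (hk : 0 < k) (Γ : Ribbon k) (B : Finset (Fin k)) (hΓ : Γ.Planar)
    -- the graph is series-parallel
    (hsp : SPall (gr Γ) Finset.univ)
    -- no loops and no parallel edges outside `B`
    (hout : ∀ e ∉ B, ∀ f ∉ B, gr Γ {e, f} = ({e, f} : Finset (Fin k)).card)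
    -- no bridges and no two-edge cuts in `B`
    (hin : ∀ e ∈ B, ∀ f ∈ B, Γ.comps {e, f}ᶜ = 1)
    -- many crossings of any sign in every box
    (n : Fin k → ℤ) (hn : ∀ e, (202 * k ^ 2 : ℤ) ≤ |n e|) 
    (D : Diagram ((mix Γ B).P ⊕ Ribbon.Pt n)) (hD : Orients D ((mix Γ B).fill n)) :
    -- (1) a large value on the unit circle
    (∃ z : ℂˣ, ‖(z : ℂ)‖ = 1 ∧ ‖(z : ℂ) ^ 2 + (z : ℂ) ^ (-2 : ℤ)‖ ≤ 1 ∧ 
      (7 / 4) ^ k ≤ ‖LaurentPolynomial.eval₂ (Int.castRingHom ℂ) z D.fPoly‖ ^ 2) ∧
    -- (2) not the unknot, not an unlink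
    (∀ c : ℕ, D.fPoly ≠ (-T 2 - T (-2)) ^ (c - 1)) ∧
    -- (3) not the polynomial of a diagram with at most `2 k / 5` crossings
    ∀ (P' : Type) (D' : Diagram P'), 5 * D'.crossings.length ≤ 2 * k → D'.fPoly ≠ D.fPoly := by
  have hA : Arb Γ B := ⟨hΓ, hsp, hout, hin⟩
  have hn' : ∀ e, 64 * Real.pi * (k : ℝ) ^ 2 ≤ |(n e : ℝ)| := by
    intro e
    have h1 : ((202 * k ^ 2 : ℤ) : ℝ) ≤ ((|n e| : ℤ) : ℝ) := Int.cast_le.2 (hn e)
    push_cast at h1
    refine le_trans ?_ h1
    have h2 := Real.pi_lt_d2
    exact mul_le_mul_of_nonneg_right (by linarith) (by positivity)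
  obtain ⟨ε, h1, h2⟩ := hA.main hk n hn' D hD
  have h7 : (1 : ℝ) < (7 / 4) ^ k := one_lt_pow₀ (by norm_num) hk.ne'
  refine ⟨⟨pt ε, norm_pt ε, ?_, h2⟩, fun c hc => ?_, fun P' D' hD' he => ?_⟩
  · have h3 := ev_pt_d ε
    rw [map_sub, map_neg, Pool.Agent.Q99.ET.ev_T, Pool.Agent.Q99.ET.ev_T] at h3
    rw [← h3] at h1
    have h4 : (pt ε : ℂ) ^ 2 + (pt ε : ℂ) ^ (-2 : ℤ) = 
        -(-(pt ε : ℂ) ^ (2 : ℤ) - (pt ε : ℂ) ^ (-2 : ℤ)) := by
      rw [zpow_ofNat]
      ring
    rw [h4, norm_neg]
    exact h1
  · rw [hc, map_pow, ev_pt_d, norm_pow] at h2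
    have h3 : (‖dd ε‖ ^ (c - 1)) ^ 2 ≤ 1 := 
      pow_le_one₀ (by positivity) (pow_le_one₀ (norm_nonneg _) h1)
    linarith
  · have h3 := norm_ev_le D' ε h1
    have h4 := two_pow_lt k D'.crossings.length hk hD'
    rw [← he] at h2
    have h5 : ‖ev (pt ε) D'.fPoly‖ ^ 2 ≤ (2 ^ D'.crossings.length) ^ 2 := 
      pow_le_pow_left₀ (norm_nonneg _) h3 2
    linarith

end Pool.Agent.Results.MP_42db45_gt.ArborescentTwists
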