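import Pool.Agent.Q179.HS.Planar

/-!
# How many diagrams with a given shadow can have the Jones polynomial of the unknot?

Definitions (starting library, `Pool.Agent.H832R2.JR.Defs`): `GaussWord N` (the shadow of a knot diagram with
`N` crossings, given by the order in which the crossings are passed; planarity is not required), `fPoly G w`
(the normalised Kauffman bracket, a state sum over all `2^N` states, of the diagram with the shadow `G` and the
crossing signs `w`; the `2^N` functions `w` are the `2^N` choices of the crossings), `Crosses G i j` (the chords
of the crossings `i` and `j` cross, that is, exactly one of the two passages of `j` lies between the two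
passages of `i`).  `PlaneCriterion G` (in `Pool.Agent.Q179.HS.Planar`): the combinatorial criterion of
Rosenstiehl and of de Fraysseix and Ossona de Mendez for the Gauss words of closed curves in the plane (every
chord crosses an even number of chords, two chords which do not cross have an even number of common crossing
chords, and the crossing pairs with an even number of common crossing chords form a cut).

Proof.  By the second moment of the bracket (starting library) diagrams with the same polynomial have the same
value of the quadratic form `∑ w_i w_j` over the pairs of crossing chords.  Its second difference at a crossing
pair of chords is never zero, which gives `3/4`.  For the second bound take a maximal set of `m` disjoint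
crossing pairs.  If `m ≥ n/4`, the quadratic Littlewood-Offord inequality of the starting library applies.
Otherwise the other chords are pairwise not crossing, and for given signs of the chords of the pairs the form
is linear in their signs; each coefficient is zero with probability at most `1/2`, and a convexity argument
with the Littlewood-Offord inequality for the number of the coefficients which are not zero gives
`1/2 + O(n^(-1/2))`.  The extremal shadows are `1 2 … n a b n … 2 1 a b`: if `a` and `b` have opposite signs,
the states at `a` and `b` cancel (second Reidemeister move), and the other chords do not cross each other
(twist knots, for odd `n`).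
-/

set_option autoImplicit false

namespace Pool.Agent.Results.MP_42db45_gt.HalfOfShadow

open LaurentPolynomial Pool.Agent.H832R2.JR Pool.Agent.Q179.HS

/-- * If a knot shadow with `N` crossings has two crossings whose chords cross, then for every Laurent
  polynomial `F` (for instance `F = 1`, the unknot) at most `3/4` of the `2^N` choices of the crossings give a
  diagram with the normalised bracket `F`.
* If `n ≥ 1` of the chords cross some other chord (`n = N` for shadows without nugatory crossings), then at
  most a proportion `1/2 + 5 n^(-1/8)` of the choices of the crossings gives a diagram with the normalised
  bracket `F`.
* The first bound is sharp: there is a shadow with three crossings, satisfying the criterion for Gauss words of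
  plane curves, every chord crossing another one, for which exactly `6 = 3/4 · 2^3` choices give the normalised
  bracket `1`.
* The constant `1/2` is sharp: for every `n` there is a shadow with `n + 2` crossings, for odd `n` satisfying
  the criterion for Gauss words of plane curves, every chord crossing another one, for which at least half of
  the choices give the normalised bracket `1`. -/
theorem result :
    (∀ (N : ℕ) (G : GaussWord N) (F : ℤ[T;T⁻¹]), (∃ i j, Crosses G i j) →
      4 * Nat.card {w : Fin N → Bool // fPoly G w = F} ≤ 3 * 2 ^ N) ∧
    (∀ (N : ℕ) (G : GaussWord N) (F : ℤ[T;T⁻¹]), (∃ i j, Crosses G i j) →
      (Nat.card {w : Fin N → Bool // fPoly G w = F} : ℝ) ≤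
        (1 / 2 + 5 * (Nat.card {i : Fin N // ∃ j, Crosses G i j} : ℝ) ^ (-(1 / 8 : ℝ))) * 2 ^ N) ∧
    (∃ G : GaussWord 3, PlaneCriterion G ∧ (∀ i, ∃ j, Crosses G i j) ∧
      Nat.card {w : Fin 3 → Bool // fPoly G w = 1} = 6) ∧
    (∀ n : ℕ, ∃ G : GaussWord (n + 2), (Odd n → PlaneCriterion G) ∧ (∀ i, ∃ j, Crosses G i j) ∧
      2 ^ (n + 1) ≤ Nat.card {w : Fin (n + 2) → Bool // fPoly G w = 1}) :=
  ⟨fun _ G F ⟨i, j, h⟩ => bound_three_quarters G F i j h,
    fun _ G F h => bound_half G F h,
    ⟨twWord 1, tw_plane 1 (by decide), tw_all 1, trefoil⟩,
    fun n => ⟨twWord n, tw_plane n, tw_all n, tw_unknots n⟩⟩

end Pool.Agent.Results.MP_42db45_gt.HalfOfShadow
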