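import Pool.Agent.Q99.ET.Main2

/-!
# Jones polynomials of links whose twist numbers are near odd multiples of one large number

`O : Sites k` is a link diagram (planar or not) with `k` open boxes and any crossings outside them;
`O.fill n` is the diagram in which the box `e` is filled with a row of `|n e|` crossings of the kind given
by the sign of `n e` (two vertical strands twisted around each other); `O.cut`: all boxes are cut (a cap
and a cup without crossings). `pcs O R` is the number of connected pieces of the diagram in which exactly
the boxes of `R` are cut.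

`Good O J`: the diagram is connected and closed, the connected pieces of `O.cut` have nonzero
determinants (the bracket of `O.cut` is not divisible by `(-A^2-A^{-2})^q` for the number `q` of its
pieces), the diagram remains connected when any two boxes of `J` are cut, and the boxes outside `J` join
the pieces of `O.cut` without cycles (no condition for `J = univ`).

Proof: if the Jones polynomial has small span, then it stays the same (up to units) when the twist numbers
are changed along `y` (rigidity, starting library). In the limit `A → exp(π i/4)`, `t → ∞`, where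
`(-A^{-4})^t → -1`, the state sum becomes a nonzero multiple of the sum of `(-2)^|R|` over the sets
`R ⊆ J` such that the boxes outside `R` join the pieces of `O.cut` without cycles; this sum is not zero by
deletion and contraction.
-/

set_option autoImplicit false

namespace Pool.Agent.Results.MP_42db45_gt.OddTwistNumbers

open Finset LaurentPolynomial Pool.Agent.H891R2.Jones Pool.Agent.H891R2.MT Pool.Agent.H891R2.SI
open Pool.Agent.Q99.ET

theorem result {k : ℕ} (O : Sites k) (J : Finset (Fin k)) (hO : Good O J) (s : ℕ) (n : Fin k → ℤ) 
    (D : Diagram (O.P ⊕ Ribbon.Pt n)) (hD : Orients D (O.fill n)) :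
    -- (1) the criterion: an integer vector, odd exactly on `J`, which satisfies all relations between
    -- partial sums of `n` that hold up to an error of at most `2 c + 3 k + s`
    ((∃ y : Fin k → ℤ, (∀ e, Odd (y e) ↔ e ∈ J) ∧ 
        ∀ S S' : Finset (Fin k), 
          |∑ e ∈ S, n e - ∑ e ∈ S', n e| ≤ 2 * O.crossings.length + 3 * k + s → 
            ∑ e ∈ S, y e = ∑ e ∈ S', y e) → 
      ¬ SpanAtMost s D ∧ ∀ c ≤ s + 1, D.fPoly ≠ (-T 2 - T (-2)) ^ (c - 1)) ∧
    -- (2) near multiples of one large number, odd multiples exactly on `J`
    ((∃ (m B0 : ℕ) (j : Fin k → ℤ), B0 * k + (2 * O.crossings.length + 3 * k + s) < m ∧ 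
        (∀ e, |n e - m * j e| ≤ B0) ∧ (∀ e, Odd (j e) ↔ e ∈ J)) → 
      ¬ SpanAtMost s D ∧ ∀ c ≤ s + 1, D.fPoly ≠ (-T 2 - T (-2)) ^ (c - 1)) := by
  constructor
  · rintro ⟨y, hy, h⟩
    have h1 := hO.odd s n y hy h D hD
    exact ⟨h1, fun c hc => not_unlink s D h1 c hc⟩
  · rintro ⟨m, B0, j, hm, hn, hj⟩
    have h1 := hO.odd_multiples s B0 m j n hm hn hj D hD
    exact ⟨h1, fun c hc => not_unlink s D h1 c hc⟩

end Pool.Agent.Results.MP_42db45_gt.OddTwistNumbers
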