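import Pool.Agent.Q147.PQ.Rigid

/-!
# Rigidity of the Jones polynomials of periodic and freely periodic links

Diagrams of links in the annulus are given by words `w : Fin l → Elem M` in elementary tangles on `M`
vertical strands (crossings and hooks, `Pool.Agent.TH561.PK.Elem`), closed around the annulus
(`annular w dir`; `dir` are the directions of the strands).

* `freeWord n w b` (`Pool.Agent.TH561.FP.Defs`) is the word `w` repeated `n` times, followed by `b` full
  twists on all `M` strands.  The link `L(n, b) = annular (freeWord n w b) dir` has a symmetry of order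
  `n` (a rotation for `b = 0`, a free symmetry if `b` is prime to `n`); the links `L(1, b)` are obtained
  from the quotient `L(1, 0)` of `L(n, 0)` by `b` full twists along a disc bounded by the axis.
* `cover n w dir` (`Pool.Agent.Q147.PQ.FPoly`) is the `n`-fold cyclic cover `L(n, 0)` of `annular w dir`
  with the lifted orientation.
* `Diagram.bracket`, `Diagram.fPoly`: the Kauffman bracket and the normalised Kauffman bracket (Jones
  polynomial in the variable `A`).

The theorem: let `q = p ^ k` be a power of a prime with `2 q > M (|a| M + 1)`.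
-/

set_option autoImplicit false

namespace Pool.Agent.Results.MP_42db45_gt.PeriodicQuotients

open Pool.Agent.H891R2.Jones Pool.Agent.TH561.PK Pool.Agent.TH561.FP Pool.Agent.Q147.PQ
  LaurentPolynomial

/-- Let `q = p ^ k` be a power of a prime with `2 q > M (|a| M + 1)`.

1. If the exponents of `A` in the terms of the bracket of one link `L(q, a)` which do not vanish modulo
   `p` lie in an interval of length less than `4 q - 4 - |a| M (M + 2)`, then there are an integer `s` and
   constants `c_n`, `n ≤ M`, `n ≡ M` modulo `2`, such that for all `j ≥ 0` and all `b`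
   `(-A² - A⁻²) ⟨L(p^j, b)⟩ ≡ A^(p^j s - 3 b M) ∑ c_n A^(b n (n + 2)) S_n(-A² - A⁻²)` modulo `p`, where
   the `S_n` are the Chebyshev polynomials (`S_n(x + 1/x) = x^n + x^(n-2) + ⋯ + x^(-n)`).
2. If exactly one coefficient of the Jones polynomial of `L(q, a)` is not divisible by `p`, then `M` is
   odd and the same is true for all `L(p^j, b)`, `j ≥ 0`, `b ∈ ℤ`.
3. If the Jones polynomial of the `q`-fold cover of `annular w d` is congruent to `1` modulo `p`, then the
   same is true for all `p^j`-fold covers, `j ≥ 0`, in particular for `annular w d`. -/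
theorem result {M l : ℕ} (hl : 0 < l) (w : Fin l → Elem M) (p k : ℕ) (hp : p.Prime) (a : ℤ)
    (hq : M * (a.natAbs * M + 1) < 2 * p ^ k) :
    (∀ (dir : Fin (p ^ k * l + a.natAbs * (M * (M - 1))) × Fin M → Bool) (lo hi : ℤ),
      hi - lo < 4 * (p : ℤ) ^ k - 4 - |a| * (M * (M + 2)) →
      (∀ e, ¬ (p : ℤ) ∣ (annular (freeWord (p ^ k) w a) dir).bracket.coeff e → lo ≤ e ∧ e ≤ hi) →
      ∃ (s : ℤ) (c : ℕ → ℤ), (∀ n, n % 2 ≠ M % 2 → c n = 0) ∧
        ∀ (j : ℕ) (b : ℤ) (dir' : Fin (p ^ j * l + b.natAbs * (M * (M - 1))) × Fin M → Bool) (e : ℤ),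
          (p : ℤ) ∣ ((-T 2 - T (-2)) * (annular (freeWord (p ^ j) w b) dir').bracket -
            T ((p : ℤ) ^ j * s - 3 * b * M) * ∑ n ∈ Finset.range (M + 1), C (c n) *
              (T (b * (n * (n + 2))) * Polynomial.aeval (-T 2 - T (-2) : ℤ[T;T⁻¹])
                (Polynomial.Chebyshev.S ℤ (n : ℤ)))).coeff e) ∧
    (∀ dir : Fin (p ^ k * l + a.natAbs * (M * (M - 1))) × Fin M → Bool,
      (∃ x, ∀ n, ¬ (p : ℤ) ∣ (annular (freeWord (p ^ k) w a) dir).fPoly.coeff n ↔ n = x) →
      Odd M ∧ ∀ (j : ℕ) (b : ℤ) (dir' : Fin (p ^ j * l + b.natAbs * (M * (M - 1))) × Fin M → Bool),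
        ∃ x, ∀ n, ¬ (p : ℤ) ∣ (annular (freeWord (p ^ j) w b) dir').fPoly.coeff n ↔ n = x) ∧
    (∀ d : Fin l × Fin M → Bool, (∀ n, (p : ℤ) ∣ ((cover (p ^ k) w d).fPoly - 1).coeff n) →
      (∀ n, (p : ℤ) ∣ ((annular w d).fPoly - 1).coeff n) ∧
      ∀ (j : ℕ) (n : ℤ), (p : ℤ) ∣ ((cover (p ^ j) w d).fPoly - 1).coeff n) := by
  have : Fact p.Prime := ⟨hp⟩
  have hM : 0 < M := by have := two_le hl w; omega
  have hMk : M < 2 * p ^ k := by
    refine lt_of_le_of_lt ?_ hq
    calc M = M * 1 := (mul_one M).symm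
      _ ≤ M * (a.natAbs * M + 1) := Nat.mul_le_mul_left _ (Nat.le_add_left _ _)
  refine ⟨?_, unit_gen' p hl w k a hq, ?_⟩
  · intro dir lo hi hlen h
    obtain ⟨s, c, hc, hj⟩ := rigid_int p hl hM w k a hq dir lo hi (by
      push_cast
      linarith) h
    refine ⟨s, c, hc, fun j b dir' e => ?_⟩
    have h1 := hj j b dir' e
    have h2 : ((p ^ j : ℕ) : ℤ) = (p : ℤ) ^ j := by push_cast; rfl
    rw [h2] at h1
    exact h1
  · intro d h
    have h1 := partB p hl w d k hMk h
    refine ⟨?_, h1⟩
    have h2 := h1 0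
    have h3 : (cover (p ^ 0) w d).fPoly = (annular w d).fPoly := cover_one w d
    rw [h3] at h2
    exact h2

end Pool.Agent.Results.MP_42db45_gt.PeriodicQuotients
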